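import Pool.Agent.N662.FP.Stm3
import Pool.Agent.N390.FL.TI
import Pool.Agent.N896.FM.CNT

/-!
# Project FL, part 3: three probability estimates (leaf CNTX + WMAX + TIL2, helper946)
-/

set_option autoImplicit false

open MeasureTheory ProbabilityTheory Filter Set
open scoped ENNReal Pointwise Topology

namespace Pool.Agent.N946.FN

open Pool.Agent.N662.FP
open Pool.Agent.N390.FL.TI (sg sg_inj D_shift)

/-- the shifted weights -/
theorem iid_shift {Ω : Type} [MeasureSpace Ω] [IsProbabilityMeasure (volume : Measure Ω)]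
    (X : Sym2 (ℤ × ℤ) → Ω → ℝ) (hX : Iid X) (a : ℤ × ℤ) : Iid fun e => X (sg a e) :=
  ⟨fun _ => hX.meas _, hX.ind.precomp (sg_inj a), fun _ => hX.law _⟩

theorem fast_shift {Ω : Type} (X : Sym2 (ℤ × ℤ) → Ω → ℝ) (x : ℤ × ℤ) (k : ℕ) (ω : Ω)
    (h : FastAt (env X ω) x k) : Fast (env (fun e => X (sg x e)) ω) k := by
  obtain ⟨p, h0, h1, h2, h3⟩ := h
  refine ⟨fun i => p i - x, ?_, fun i hi => ?_, fun i hi j hj hij => ?_, ?_⟩
  · show p 0 - x = 0
    rw [h0, sub_self]
  · have h4 := h1 i hi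
    simp only [Prod.fst_sub, Prod.snd_sub, sub_sub_sub_cancel_right]
    exact h4
  · exact h2 i hi j hj (sub_left_injective hij)
  · refine le_of_eq_of_le (Finset.sum_congr rfl fun i _ => ?_) h3
    show X s(x + (p i - x), x + (p (i + 1) - x)) ω = X s(p i, p (i + 1)) ω
    rw [add_sub_cancel, add_sub_cancel]

theorem card_Box (R : ℕ) : (Box R).card = (2 * R + 1) ^ 2 := by
  unfold Box
  rw [Finset.card_product, Int.card_Icc, sq]
  congr 1 <;> omega

theorem t_CNTX : S_CNTX := by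
  intro Ω _ _ X hX R k
  have hsub : {ω | ∃ x ∈ Box R, FastAt (env X ω) x k} ⊆
      ⋃ x ∈ Box R, {ω | FastAt (env X ω) x k} := by
    rintro ω ⟨x, hx, h⟩
    exact mem_iUnion₂.2 ⟨x, hx, h⟩
  have h1 : ∀ x ∈ Box R, (volume : Measure Ω).real {ω | FastAt (env X ω) x k} ≤ (1 / 2 : ℝ) ^ k := by
    intro x _
    have h2 := Pool.Agent.N896.FM.t_CNT Ω (fun e => X (sg x e)) (iid_shift X hX x) k
    have h3 : (volume : Measure Ω) {ω | FastAt (env X ω) x k} ≤ (1 / 2 : ℝ≥0∞) ^ k :=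
      (measure_mono fun ω hω => fast_shift X x k ω hω).trans h2
    have h4 : ((1 / 2 : ℝ≥0∞) ^ k).toReal = (1 / 2 : ℝ) ^ k := by
      rw [ENNReal.toReal_pow]
      simp
    rw [measureReal_def, ← h4]
    exact ENNReal.toReal_mono (ENNReal.pow_ne_top (by simp)) h3
  calc (volume : Measure Ω).real {ω | ∃ x ∈ Box R, FastAt (env X ω) x k}
      ≤ (volume : Measure Ω).real (⋃ x ∈ Box R, {ω | FastAt (env X ω) x k}) :=
        measureReal_mono hsub (measure_ne_top _ _)
    _ ≤ ∑ x ∈ Box R, (volume : Measure Ω).real {ω | FastAt (env X ω) x k} :=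
        measureReal_biUnion_finset_le _ _
    _ ≤ ∑ _x ∈ Box R, (1 / 2 : ℝ) ^ k := Finset.sum_le_sum h1
    _ = (2 * R + 1) ^ 2 * (1 / 2 : ℝ) ^ k := by
      rw [Finset.sum_const, card_Box, nsmul_eq_mul]
      push_cast
      ring

theorem tail {Ω : Type} [MeasureSpace Ω] [IsProbabilityMeasure (volume : Measure Ω)]
    (X : Sym2 (ℤ × ℤ) → Ω → ℝ) (hX : Iid X) (e : Sym2 (ℤ × ℤ)) {W : ℝ} (hW : 0 ≤ W) :
    (volume : Measure Ω).real {ω | W < X e ω} = Real.exp (-W) := by
  have : IsProbabilityMeasure (expMeasure 1) := isProbabilityMeasure_expMeasure one_pos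
  have h1 : (volume : Measure Ω) {ω | W < X e ω} = expMeasure 1 (Ioi W) := by
    rw [← hX.law e, Measure.map_apply (hX.meas e) measurableSet_Ioi]
    rfl
  have h2 : (expMeasure 1).real (Iic W) = 1 - Real.exp (-W) := by
    rw [← cdf_eq_real, cdf_expMeasure_eq one_pos, if_pos hW, one_mul]
  have h3 : (expMeasure 1).real (Iic W)ᶜ = 1 - (expMeasure 1).real (Iic W) :=
    probReal_compl_eq_one_sub measurableSet_Iic
  rw [compl_Iic, h2] at h3
  rw [measureReal_def, h1, ← measureReal_def, h3]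
  ring

theorem t_WMAX : S_WMAX := by
  intro Ω _ _ X hX R W hW
  have hsub : {ω | ∃ x ∈ Box R, ∃ y ∈ Box R, W < env X ω s(x, y)} ⊆
      ⋃ z ∈ Box R ×ˢ Box R, {ω | W < X s(z.1, z.2) ω} := by
    rintro ω ⟨x, hx, y, hy, h⟩
    exact mem_iUnion₂.2 ⟨(x, y), Finset.mem_product.2 ⟨hx, hy⟩, h⟩
  calc (volume : Measure Ω).real {ω | ∃ x ∈ Box R, ∃ y ∈ Box R, W < env X ω s(x, y)}
      ≤ (volume : Measure Ω).real (⋃ z ∈ Box R ×ˢ Box R, {ω | W < X s(z.1, z.2) ω}) :=
        measureReal_mono hsub (measure_ne_top _ _)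
    _ ≤ ∑ z ∈ Box R ×ˢ Box R, (volume : Measure Ω).real {ω | W < X s(z.1, z.2) ω} :=
        measureReal_biUnion_finset_le _ _
    _ = ∑ _z ∈ Box R ×ˢ Box R, Real.exp (-W) :=
        Finset.sum_congr rfl fun z _ => tail X hX _ hW
    _ = (2 * R + 1) ^ 4 * Real.exp (-W) := by
      rw [Finset.sum_const, Finset.card_product, card_Box, nsmul_eq_mul]
      push_cast
      ring

theorem t_TIL2 (h1 : S_ME) (h2 : S_AE) : S_TIL2 := by
  intro Ω _ _ X hX a b s
  obtain ⟨v, rfl⟩ : ∃ v, b = a + v := ⟨b - a, by rw [add_sub_cancel]⟩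
  rw [add_sub_cancel_left]
  have hm := h1 0 v
  set Φ : (Sym2 (ℤ × ℤ) → ℝ) → ℝ := fun x => D (fun e => max (x e) 0) 0 v with hΦ
  have hae := h2 Ω X hX
  have hE : MeasurableSet {x | Φ x ≤ s} := measurableSet_le hm measurable_const
  -- both sides through `Φ`
  have e1 : (volume : Measure Ω) {ω | D (env X ω) a (a + v) ≤ s} =
      (volume : Measure Ω) ((fun ω (e : Sym2 (ℤ × ℤ)) => X (sg a e) ω) ⁻¹' {x | Φ x ≤ s}) := by
    refine measure_congr ?_
    filter_upwards [hae] with ω hω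
    have h3 : D (env X ω) a (a + v) = Φ (fun e => X (sg a e) ω) := by
      rw [D_shift]
      show D _ 0 v = D _ 0 v
      congr 1
      funext e
      exact (max_eq_left (hω (sg a e))).symm
    show (D (env X ω) a (a + v) ≤ s) = (Φ (fun e => X (sg a e) ω) ≤ s)
    rw [h3]
  have e2 : (volume : Measure Ω) {ω | D (env X ω) 0 v ≤ s} =
      (volume : Measure Ω) ((fun ω (e : Sym2 (ℤ × ℤ)) => X e ω) ⁻¹' {x | Φ x ≤ s}) := by
    refine measure_congr ?_
    filter_upwards [hae] with ω hω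
    have h3 : D (env X ω) 0 v = Φ (fun e => X e ω) := by
      show D _ 0 v = D _ 0 v
      congr 1
      funext e
      exact (max_eq_left (hω e)).symm
    show (D (env X ω) 0 v ≤ s) = (Φ (fun e => X e ω) ≤ s)
    rw [h3]
  have m1 : Measurable (fun ω (e : Sym2 (ℤ × ℤ)) => X (sg a e) ω) :=
    measurable_pi_iff.2 fun e => hX.meas _
  have m2 : Measurable (fun ω (e : Sym2 (ℤ × ℤ)) => X e ω) := measurable_pi_iff.2 fun e => hX.meas e
  have l1 : Measure.map (fun ω (e : Sym2 (ℤ × ℤ)) => X (sg a e) ω) (volume : Measure Ω) =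
      Measure.infinitePi (fun _ : Sym2 (ℤ × ℤ) => expMeasure 1) := by
    have h3 : iIndepFun (fun e => X (sg a e)) (volume : Measure Ω) := hX.ind.precomp (sg_inj a)
    have h4 := (iIndepFun_iff_map_fun_eq_infinitePi_map (fun e => hX.meas (sg a e))).1 h3
    rw [h4]
    congr 1
    funext e
    exact hX.law _
  have l2 : Measure.map (fun ω (e : Sym2 (ℤ × ℤ)) => X e ω) (volume : Measure Ω) =
      Measure.infinitePi (fun _ : Sym2 (ℤ × ℤ) => expMeasure 1) := by
    have h4 := (iIndepFun_iff_map_fun_eq_infinitePi_map hX.meas).1 hX.ind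
    rw [h4]
    congr 1
    funext e
    exact hX.law _
  rw [measureReal_def, measureReal_def, e1, e2, ← Measure.map_apply m1 hE,
    ← Measure.map_apply m2 hE, l1, l2]

end Pool.Agent.N946.FN
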